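import Pool.Agent.H38.FT.D.Cub
import Pool.Agent.H59.FT.Sound

/-! The listed configurations are polyhedra. -/

namespace Pool.Agent.H38.FT

open Code

theorem cub_poly : (cubR.all fun r => checkPoly cubM.n (masks r.W cubOhE)) = true := by
  decide +kernel

end Pool.Agent.H38.FT
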