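import Pool.Agent.H21.FT.ListSplit
import Pool.Agent.H38.FT.D.Dod
import Pool.Agent.H59.FT.Sound

/-! The listed configurations are polyhedra. -/

namespace Pool.Agent.H38.FT

open Code

set_option maxRecDepth 100000 in
theorem dod_poly_p0 : ((dodR.drop 0).take 2).all
    (fun r => checkPoly dodM.n (masks r.W dodIhE)) = true := by
  decide +kernel

set_option maxRecDepth 100000 in
theorem dod_poly_p1 : ((dodR.drop 2).take 2).all
    (fun r => checkPoly dodM.n (masks r.W dodIhE)) = true := by
  decide +kernel

set_option maxRecDepth 100000 in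
theorem dod_poly_p2 : ((dodR.drop 4).take 2).all
    (fun r => checkPoly dodM.n (masks r.W dodIhE)) = true := by
  decide +kernel

set_option maxRecDepth 100000 in
theorem dod_poly_p3 : ((dodR.drop 6).take 2).all
    (fun r => checkPoly dodM.n (masks r.W dodIhE)) = true := by
  decide +kernel

set_option maxRecDepth 100000 in
theorem dod_poly_p4 : (dodR.drop 8).all
    (fun r => checkPoly dodM.n (masks r.W dodIhE)) = true := by
  decide +kernel

theorem dod_poly : dodR.all
    (fun r => checkPoly dodM.n (masks r.W dodIhE)) = true := by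
  change (dodR.drop 0).all _ = true
  refine Pool.Agent.H21.FT.all_step 0 2 dod_poly_p0 ?_
  refine Pool.Agent.H21.FT.all_step 2 2 dod_poly_p1 ?_
  refine Pool.Agent.H21.FT.all_step 4 2 dod_poly_p2 ?_
  refine Pool.Agent.H21.FT.all_step 6 2 dod_poly_p3 ?_
  exact dod_poly_p4

end Pool.Agent.H38.FT
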