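import Pool.Agent.H21.FT.ListSplit
import Pool.Agent.H38.FT.D.Ici
import Pool.Agent.H59.FT.Sound

/-! The listed configurations are polyhedra. -/

namespace Pool.Agent.H38.FT

open Code

set_option maxRecDepth 100000 in
theorem ici_poly_p0 : ((iciR.drop 0).take 3).all
    (fun r => checkPoly iciM.n (masks r.W iciIhE)) = true := by
  decide +kernel

set_option maxRecDepth 100000 in
theorem ici_poly_p1 : ((iciR.drop 3).take 3).all
    (fun r => checkPoly iciM.n (masks r.W iciIhE)) = true := by
  decide +kernel

set_option maxRecDepth 100000 in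
theorem ici_poly_p2 : ((iciR.drop 6).take 3).all
    (fun r => checkPoly iciM.n (masks r.W iciIhE)) = true := by
  decide +kernel

set_option maxRecDepth 100000 in
theorem ici_poly_p3 : ((iciR.drop 9).take 3).all
    (fun r => checkPoly iciM.n (masks r.W iciIhE)) = true := by
  decide +kernel

set_option maxRecDepth 100000 in
theorem ici_poly_p4 : ((iciR.drop 12).take 3).all
    (fun r => checkPoly iciM.n (masks r.W iciIhE)) = true := by
  decide +kernel

set_option maxRecDepth 100000 in
theorem ici_poly_p5 : (iciR.drop 15).all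
    (fun r => checkPoly iciM.n (masks r.W iciIhE)) = true := by
  decide +kernel

theorem ici_poly : iciR.all
    (fun r => checkPoly iciM.n (masks r.W iciIhE)) = true := by
  change (iciR.drop 0).all _ = true
  refine Pool.Agent.H21.FT.all_step 0 3 ici_poly_p0 ?_
  refine Pool.Agent.H21.FT.all_step 3 3 ici_poly_p1 ?_
  refine Pool.Agent.H21.FT.all_step 6 3 ici_poly_p2 ?_
  refine Pool.Agent.H21.FT.all_step 9 3 ici_poly_p3 ?_
  refine Pool.Agent.H21.FT.all_step 12 3 ici_poly_p4 ?_
  exact ici_poly_p5

end Pool.Agent.H38.FT
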