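import Pool.Agent.H21.FT.ListSplit
import Pool.Agent.H38.FT.D.Ihm
import Pool.Agent.H59.FT.Sound

/-! The listed configurations are polyhedra. -/

namespace Pool.Agent.H38.FT

open Code

set_option maxRecDepth 100000 in
theorem ihm_poly_p0 : ((ihmR.drop 0).take 1).all
    (fun r => checkPoly ihmM.n (masks r.W ihmIhE)) = true := by
  decide +kernel

set_option maxRecDepth 100000 in
theorem ihm_poly_p1 : ((ihmR.drop 1).take 1).all
    (fun r => checkPoly ihmM.n (masks r.W ihmIhE)) = true := by
  decide +kernel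

set_option maxRecDepth 100000 in
theorem ihm_poly_p2 : ((ihmR.drop 2).take 1).all
    (fun r => checkPoly ihmM.n (masks r.W ihmIhE)) = true := by
  decide +kernel

set_option maxRecDepth 100000 in
theorem ihm_poly_p3 : ((ihmR.drop 3).take 1).all
    (fun r => checkPoly ihmM.n (masks r.W ihmIhE)) = true := by
  decide +kernel

set_option maxRecDepth 100000 in
theorem ihm_poly_p4 : ((ihmR.drop 4).take 1).all
    (fun r => checkPoly ihmM.n (masks r.W ihmIhE)) = true := by
  decide +kernel

set_option maxRecDepth 100000 in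
theorem ihm_poly_p5 : ((ihmR.drop 5).take 1).all
    (fun r => checkPoly ihmM.n (masks r.W ihmIhE)) = true := by
  decide +kernel

set_option maxRecDepth 100000 in
theorem ihm_poly_p6 : ((ihmR.drop 6).take 1).all
    (fun r => checkPoly ihmM.n (masks r.W ihmIhE)) = true := by
  decide +kernel

set_option maxRecDepth 100000 in
theorem ihm_poly_p7 : ((ihmR.drop 7).take 1).all
    (fun r => checkPoly ihmM.n (masks r.W ihmIhE)) = true := by
  decide +kernel

set_option maxRecDepth 100000 in
theorem ihm_poly_p8 : ((ihmR.drop 8).take 1).all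
    (fun r => checkPoly ihmM.n (masks r.W ihmIhE)) = true := by
  decide +kernel

set_option maxRecDepth 100000 in
theorem ihm_poly_p9 : ((ihmR.drop 9).take 1).all
    (fun r => checkPoly ihmM.n (masks r.W ihmIhE)) = true := by
  decide +kernel

set_option maxRecDepth 100000 in
theorem ihm_poly_p10 : ((ihmR.drop 10).take 1).all
    (fun r => checkPoly ihmM.n (masks r.W ihmIhE)) = true := by
  decide +kernel

set_option maxRecDepth 100000 in
theorem ihm_poly_p11 : ((ihmR.drop 11).take 1).all
    (fun r => checkPoly ihmM.n (masks r.W ihmIhE)) = true := by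
  decide +kernel

set_option maxRecDepth 100000 in
theorem ihm_poly_p12 : ((ihmR.drop 12).take 1).all
    (fun r => checkPoly ihmM.n (masks r.W ihmIhE)) = true := by
  decide +kernel

set_option maxRecDepth 100000 in
theorem ihm_poly_p13 : ((ihmR.drop 13).take 1).all
    (fun r => checkPoly ihmM.n (masks r.W ihmIhE)) = true := by
  decide +kernel

set_option maxRecDepth 100000 in
theorem ihm_poly_p14 : ((ihmR.drop 14).take 1).all
    (fun r => checkPoly ihmM.n (masks r.W ihmIhE)) = true := by
  decide +kernel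

set_option maxRecDepth 100000 in
theorem ihm_poly_p15 : ((ihmR.drop 15).take 1).all
    (fun r => checkPoly ihmM.n (masks r.W ihmIhE)) = true := by
  decide +kernel

set_option maxRecDepth 100000 in
theorem ihm_poly_p16 : ((ihmR.drop 16).take 1).all
    (fun r => checkPoly ihmM.n (masks r.W ihmIhE)) = true := by
  decide +kernel

set_option maxRecDepth 100000 in
theorem ihm_poly_p17 : (ihmR.drop 17).all
    (fun r => checkPoly ihmM.n (masks r.W ihmIhE)) = true := by
  decide +kernel

theorem ihm_poly : ihmR.all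
    (fun r => checkPoly ihmM.n (masks r.W ihmIhE)) = true := by
  change (ihmR.drop 0).all _ = true
  refine Pool.Agent.H21.FT.all_step 0 1 ihm_poly_p0 ?_
  refine Pool.Agent.H21.FT.all_step 1 1 ihm_poly_p1 ?_
  refine Pool.Agent.H21.FT.all_step 2 1 ihm_poly_p2 ?_
  refine Pool.Agent.H21.FT.all_step 3 1 ihm_poly_p3 ?_
  refine Pool.Agent.H21.FT.all_step 4 1 ihm_poly_p4 ?_
  refine Pool.Agent.H21.FT.all_step 5 1 ihm_poly_p5 ?_
  refine Pool.Agent.H21.FT.all_step 6 1 ihm_poly_p6 ?_
  refine Pool.Agent.H21.FT.all_step 7 1 ihm_poly_p7 ?_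
  refine Pool.Agent.H21.FT.all_step 8 1 ihm_poly_p8 ?_
  refine Pool.Agent.H21.FT.all_step 9 1 ihm_poly_p9 ?_
  refine Pool.Agent.H21.FT.all_step 10 1 ihm_poly_p10 ?_
  refine Pool.Agent.H21.FT.all_step 11 1 ihm_poly_p11 ?_
  refine Pool.Agent.H21.FT.all_step 12 1 ihm_poly_p12 ?_
  refine Pool.Agent.H21.FT.all_step 13 1 ihm_poly_p13 ?_
  refine Pool.Agent.H21.FT.all_step 14 1 ihm_poly_p14 ?_
  refine Pool.Agent.H21.FT.all_step 15 1 ihm_poly_p15 ?_
  refine Pool.Agent.H21.FT.all_step 16 1 ihm_poly_p16 ?_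
  exact ihm_poly_p17

end Pool.Agent.H38.FT
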