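import Pool.Agent.H38.FT.D.Ohs
import Pool.Agent.H59.FT.Sound

/-! The listed configurations are polyhedra. -/

namespace Pool.Agent.H38.FT

open Code

theorem ohs_poly : (ohsR.all fun r => checkPoly ohsM.n (masks r.W ohsOhE)) = true := by
  decide +kernel

end Pool.Agent.H38.FT
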